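import Pool.Agent.R111.LQ.Xor

/-!
# Chromatic number and rank for graphs given by few quadratic polynomials

Let the vertices of the graph `G` be covered by the images of `t` maps `φ_i : F_2^(n_i) → V`, and let
the adjacency of `φ_i x` and `φ_i y` be a function `g_i (P_1(x, y), …, P_k(x, y))` of `k` quadratic
polynomials over `F_2` (which may depend on `i`), `g_i : F_2^k → {0,1}` arbitrary. Then
`log₂ χ(G) ≤ log₂ t + k (log₂ r + 12 k + 5)`, where `r` is the real rank of the adjacency matrix. Nothing
is assumed about the adjacency of vertices in different images, and the numbers `n_i` of variables do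
not enter. The same holds for polynomials of higher degree with bilinear mixed part.

The proof is that of `MP_e5d384_lc.FewQuadratics`: the function of `k` polynomials depends only on
combinations of them whose bilinear parts have small rank, so that there are few different rows, and
vertices of one image with the same row get the same colour.
-/

set_option autoImplicit false

namespace Pool.Agent.Results.MP_3bd889_lc.FewQuadratics

open MvPolynomial Matrix

/-- The mixed part of `P(x, y)` is bilinear: as a function, `P` is the sum of a function of `x`, a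
function of `y` and a bilinear form. -/
def BilinearMixedPart {n n' : ℕ} (P : MvPolynomial (Fin n ⊕ Fin n') (ZMod 2)) : Prop :=
  ∃ (a : (Fin n → ZMod 2) → ZMod 2) (b : (Fin n' → ZMod 2) → ZMod 2)
    (B : Matrix (Fin n) (Fin n') (ZMod 2)),
    ∀ x y, eval (Sum.elim x y) P = a x + b y + x ⬝ᵥ (B *ᵥ y)

/-- The vertices of `G` are covered by the images of maps `φ i` from `F_2^(n i)`, `i < t`, and whether
`φ i x` and `φ i y` are adjacent is a function of the values of the polynomials `P i j`, `j < k`, at
`(x, y)`. -/
def GivenBy {V : Type} (G : SimpleGraph V) {t k : ℕ} (n : Fin t → ℕ)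
    (P : ∀ i, Fin k → MvPolynomial (Fin (n i) ⊕ Fin (n i)) (ZMod 2)) : Prop :=
  ∃ (φ : ∀ i, (Fin (n i) → ZMod 2) → V) (g : Fin t → (Fin k → ZMod 2) → Bool),
    (∀ v, ∃ i x, φ i x = v) ∧
    ∀ i x y, G.Adj (φ i x) (φ i y) ↔ g i (fun j => eval (Sum.elim x y) (P i j)) = true

/-- **Chromatic number and rank for graphs given by few quadratic polynomials.**
Let `r` be the real rank of the adjacency matrix of `G`.
(1) If `G` is given by `k` polynomials of degree at most `e` with bilinear mixed part on each of `t`
pieces, then `log₂ χ(G) ≤ log₂ t + k (log₂ r + (2 e + 8) k + 5)`.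
(2) If `G` is given by `k` polynomials of degree at most two on each of `t` pieces, then
`log₂ χ(G) ≤ log₂ t + k (log₂ r + 12 k + 5)`. -/
theorem result (V : Type) [Fintype V] (G : SimpleGraph V) [DecidableRel G.Adj] (t k : ℕ)
    (n : Fin t → ℕ) (P : ∀ i, Fin k → MvPolynomial (Fin (n i) ⊕ Fin (n i)) (ZMod 2))
    (hG : GivenBy G n P) :
    (∀ e : ℕ, (∀ i j, (P i j).totalDegree ≤ e) → (∀ i j, BilinearMixedPart (P i j)) →
      Real.logb 2 (G.chromaticNumber.toNat : ℝ) ≤
        Real.logb 2 t + k * (Real.logb 2 ((G.adjMatrix ℝ).rank : ℝ) + (2 * e + 8) * k + 5)) ∧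
    ((∀ i j, (P i j).totalDegree ≤ 2) →
      Real.logb 2 (G.chromaticNumber.toNat : ℝ) ≤
        Real.logb 2 t + k * (Real.logb 2 ((G.adjMatrix ℝ).rank : ℝ) + 12 * k + 5)) := by
  classical
  obtain ⟨φ, g, hφ, hadj⟩ := hG
  have main : ∀ e : ℕ, (∀ i j, (P i j).totalDegree ≤ e) → (∀ i j, BilinearMixedPart (P i j)) →
      Real.logb 2 (G.chromaticNumber.toNat : ℝ) ≤
        Real.logb 2 t +
          k * (Real.logb 2 ((G.adjMatrix ℝ).rank : ℝ) + (2 * e + 8) * k + 5) := by
    intro e hdeg hmix
    set r := (G.adjMatrix ℝ).rank with hr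
    have hsub : ∀ i, (Matrix.of fun (x : Fin (n i) → ZMod 2) (y : Fin (n i) → ZMod 2) =>
        if g i (fun j => eval (Sum.elim x y) (P i j)) then (1 : ℝ) else 0).rank ≤ r := by
      intro i
      have e1 : (Matrix.of fun (x : Fin (n i) → ZMod 2) (y : Fin (n i) → ZMod 2) =>
          if g i (fun j => eval (Sum.elim x y) (P i j)) then (1 : ℝ) else 0) =
          (G.adjMatrix ℝ).submatrix (φ i) (φ i) := by
        ext x y
        simp [SimpleGraph.adjMatrix_apply, hadj i x y]
      rw [e1]
      exact Pool.Agent.R111.LQ.rank_submatrix _ _ _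
    choose w Q hQ α hcard hw hα using fun i =>
      Pool.Agent.R111.LQ.final_rows (P i) e (hdeg i) (hmix i) (g i) r (hsub i)
    choose I A hIA using hφ
    set W := k * (Nat.log 2 r + (2 * e + 8) * k + 5) with hW
    -- the colouring
    let col : G.Coloring (Σ i, Q i) := SimpleGraph.Coloring.mk
      (fun v => (⟨I v, α (I v) (A v)⟩ : Σ i, Q i)) (by
        intro u v huv hcol
        have key : ∀ (i i' : Fin t) (x : Fin (n i) → ZMod 2) (x' : Fin (n i') → ZMod 2),
            (⟨i, α i x⟩ : Σ i, Q i) = ⟨i', α i' x'⟩ → ¬ G.Adj (φ i x) (φ i' x') := by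
          intro i i' x x' h
          obtain rfl : i = i' := congrArg Sigma.fst h
          have h2 : α i x = α i x' := by
            simpa using h
          intro had
          have h3 := (hadj i x x').1 had
          rw [hα i x x' h2 x'] at h3
          exact G.loopless.irrefl _ ((hadj i x' x').2 h3)
        have := key (I u) (I v) (A u) (A v) hcol
        rw [hIA, hIA] at this
        exact this huv)
    have h1 : G.Colorable (Fintype.card (Σ i, Q i)) := col.colorable
    have h2 : Fintype.card (Σ i, Q i) ≤ t * 2 ^ W := by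
      rw [Fintype.card_sigma]
      calc _ ≤ ∑ _i : Fin t, 2 ^ W :=
            Finset.sum_le_sum fun i _ => (hcard i).trans (Nat.pow_le_pow_right (by norm_num) (hw i))
        _ = t * 2 ^ W := by simp
    have h3 : G.chromaticNumber.toNat ≤ t * 2 ^ W := by
      have h4 : G.chromaticNumber ≤ ((t * 2 ^ W : ℕ) : ℕ∞) :=
        (h1.mono h2).chromaticNumber_le
      have h5 := ENat.toNat_le_toNat h4 (ENat.natCast_ne_top _)
      rwa [ENat.toNat_natCast] at h5
    have hlog : (Nat.log 2 r : ℝ) ≤ Real.logb 2 r := by
      have := Real.natLog_le_logb r 2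
      simpa using this
    have hW' : (W : ℝ) ≤ k * (Real.logb 2 r + (2 * e + 8) * k + 5) := by
      rw [hW]
      push_cast
      have hk : (0 : ℝ) ≤ k := Nat.cast_nonneg k
      have := mul_le_mul_of_nonneg_left hlog hk
      nlinarith
    by_cases h0 : G.chromaticNumber.toNat = 0
    · rw [h0, Nat.cast_zero, Real.logb_zero]
      have ht : 0 ≤ Real.logb 2 (t : ℝ) := by
        rcases Nat.eq_zero_or_pos t with h | h
        · simp [h]
        · exact Real.logb_nonneg (by norm_num) (by exact_mod_cast h)
      have : (0 : ℝ) ≤ W := Nat.cast_nonneg _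
      linarith
    · have hpos : (0 : ℝ) < G.chromaticNumber.toNat := by
        exact_mod_cast Nat.pos_of_ne_zero h0
      have ht : (0 : ℝ) < t := by
        rcases Nat.eq_zero_or_pos t with h | h
        · rw [h, zero_mul] at h3
          omega
        · exact_mod_cast h
      have h5 : (G.chromaticNumber.toNat : ℝ) ≤ t * 2 ^ W := by exact_mod_cast h3
      have h6 := Real.logb_le_logb_of_le (by norm_num : (1 : ℝ) < 2) hpos h5
      rw [Real.logb_mul ht.ne' (by positivity), Real.logb_pow, Real.logb_self_eq_one (by norm_num),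
        mul_one] at h6
      linarith
  refine ⟨main, fun hdeg => ?_⟩
  have h := main 2 hdeg (fun i j => Pool.Agent.R111.LQ.mixed_of_quadratic (P i j) (hdeg i j))
  have e : (k : ℝ) * (Real.logb 2 ((G.adjMatrix ℝ).rank : ℝ) + (2 * (2 : ℕ) + 8) * k + 5) =
      k * (Real.logb 2 ((G.adjMatrix ℝ).rank : ℝ) + 12 * k + 5) := by push_cast; ring
  rw [e] at h
  exact h

end Pool.Agent.Results.MP_3bd889_lc.FewQuadratics
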