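import Pool.Agent.R111.LS.Normal

/-!
# Chromatic number and rank for graphs with linear symmetry

Let a finite group `Γ` act on the graph `G` by automorphisms, and let `r` be the real rank of the
adjacency matrix of `G`.

(1) Let `A` be an abelian normal subgroup of `Γ` (no bound for the number of its generators) with `t`
orbits of vertices. Then `χ(G) ≤ t [A : A₀]` if all characters of `A` with at most `r` conjugates under
`Γ` are trivial on `A₀`.

(2), (3), (4) Let the symmetry group contain a general linear group `GL(V)` over a finite field. All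
transvections act trivially on the rows as soon as `r + 1 < q ^ (dim V - 1)`. Hence the graph form of
the log-rank conjecture holds for the Cayley graphs on `GL(V)`-modules of size `2 ^ poly(dim V log q)`
(forms, tensors, algebra structures, spaces of matrices, …) whose connection set is invariant under
`GL(V)`, in particular for all Cayley graphs on spaces of `k`-tensors whose connection set is
invariant under the invertible linear maps in the `k` directions, for arbitrary finite fields and
dimensions and fixed `k`.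

Vertices with the same row are not adjacent (there are no loops), so that rows can be used as colours;
the proof is that of `MP_e5d384_lc.LinearSymmetry`.
-/

set_option autoImplicit false

namespace Pool.Agent.Results.MP_3bd889_lc.LinearSymmetry

open Module

open Classical in
/-- the real rank of the adjacency matrix -/
noncomputable def rk {V : Type} [Fintype V] (G : SimpleGraph V) : ℕ :=
  (G.adjMatrix ℝ).rank

/-- `log₂` of the chromatic number -/
noncomputable def logChi {V : Type} (G : SimpleGraph V) : ℝ :=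
  Real.logb 2 (G.chromaticNumber.toNat : ℝ)

/-- the number of conjugates `a ↦ χ (g a g⁻¹)`, `g ∈ Γ`, of the character `χ` of the normal
subgroup `A` of `Γ` -/
noncomputable def conjugates {Γ : Type} [Group Γ] {A : Subgroup Γ} [A.Normal] (χ : A →* ℂ) : ℕ :=
  (Set.range fun g : Γ => χ.comp (MulAut.conjNormal g).toMonoidHom).ncard

/-- the linear map `e` applied to the tensor `T` in the direction `i`, that is to all the vectors
`l ↦ T (j_1, …, j_{i-1}, l, j_{i+1}, …)` -/
def act {K : Type} [Field K] {k : ℕ} {n : Fin k → ℕ} (i : Fin k)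
    (e : (Fin (n i) → K) →ₗ[K] (Fin (n i) → K)) (T : (∀ i, Fin (n i)) → K) :
    (∀ i, Fin (n i)) → K :=
  fun j => e (fun l => T (Function.update j i l)) (j i)

/-- the Cayley graph of the abelian group `M` with the symmetric connection set `S` (without loops) -/
def cayley {M : Type} [AddCommGroup M] (S : Set M) (h : ∀ m ∈ S, -m ∈ S) : SimpleGraph M where
  Adj x y := x ≠ y ∧ x - y ∈ S
  symm := ⟨fun x y hxy => ⟨hxy.1.symm, by rw [← neg_sub]; exact h _ hxy.2⟩⟩
  loopless := ⟨fun x hx => hx.1 rfl⟩

theorem colorable_of_classes {V Q : Type} [Fintype Q] (G : SimpleGraph V) (α : V → Q)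
    (hα : ∀ x x', α x = α x' → ∀ y, G.Adj x y ↔ G.Adj x' y) : G.Colorable (Fintype.card Q) := by
  have col : G.Coloring Q := SimpleGraph.Coloring.mk α (by
    intro x y hxy h
    exact G.loopless.irrefl _ ((hα x y h y).1 hxy))
  exact col.colorable

theorem logChi_le_of_classes {V Q : Type} [Fintype Q] (G : SimpleGraph V) (α : V → Q)
    (hα : ∀ x x', α x = α x' → ∀ y, G.Adj x y ↔ G.Adj x' y) :
    logChi G ≤ Real.logb 2 (Fintype.card Q) := by
  have h1 := (colorable_of_classes G α hα).chromaticNumber_le
  have h2 := ENat.toNat_le_toNat h1 (ENat.natCast_ne_top _)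
  rw [ENat.toNat_natCast] at h2
  unfold logChi
  rcases Nat.eq_zero_or_pos G.chromaticNumber.toNat with h | h
  · rw [h]
    simp only [Nat.cast_zero, Real.logb_zero]
    rcases Nat.eq_zero_or_pos (Fintype.card Q) with h' | h'
    · simp [h']
    · exact Real.logb_nonneg (by norm_num) (by exact_mod_cast h')
  · exact Real.logb_le_logb_of_le (by norm_num) (by exact_mod_cast h) (by exact_mod_cast h2)

open Classical in
theorem pass {V : Type} {G : SimpleGraph V} {x x' y : V}
    (h : (if G.Adj x y then (1 : ℝ) else 0) = if G.Adj x' y then (1 : ℝ) else 0) :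
    G.Adj x y ↔ G.Adj x' y := by
  by_cases h1 : G.Adj x y <;> by_cases h2 : G.Adj x' y <;> simp_all

theorem logb_le_of_large {q n r : ℕ} (hn : 2 ≤ n) (hq : 2 ≤ q) (hr : q ^ (n - 1) ≤ r + 1) :
    (n : ℝ) * Real.logb 2 q ≤ 2 * Real.logb 2 ((r : ℝ) + 1) := by
  have h1 : Real.logb 2 ((q : ℝ) ^ (n - 1)) ≤ Real.logb 2 ((r : ℝ) + 1) :=
    Real.logb_le_logb_of_le (by norm_num) (by positivity) (by exact_mod_cast hr)
  rw [Real.logb_pow] at h1
  have h2 : 0 ≤ Real.logb 2 (q : ℝ) := Real.logb_nonneg (by norm_num) (by
    exact_mod_cast (by omega : 1 ≤ q))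
  have h3 : (n : ℝ) ≤ 2 * ((n - 1 : ℕ) : ℝ) := by
    rw [Nat.cast_sub (by omega)]
    push_cast
    have : (2 : ℝ) ≤ n := by exact_mod_cast hn
    linarith
  calc (n : ℝ) * Real.logb 2 q ≤ (2 * ((n - 1 : ℕ) : ℝ)) * Real.logb 2 q :=
        mul_le_mul_of_nonneg_right h3 h2
    _ ≤ _ := by linarith

/-- Let the finite group `Γ` act on the graph `G` by automorphisms, `A` an abelian normal subgroup of
`Γ`, `b 0, …, b (t - 1)` representatives of the orbits of `A` on the vertices, and `A₀` a subgroup of
`A` on which all characters of `A` with at most `rank G` conjugates are trivial. Then `G` can be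
coloured with `t [A : A₀]` colours. -/
def AbelianNormal : Prop :=
  ∀ (Γ V : Type) [Group Γ] [Finite Γ] [Fintype V] [MulAction Γ V] (G : SimpleGraph V)
    (_ : ∀ (g : Γ) x y, G.Adj (g • x) (g • y) ↔ G.Adj x y)
    (A : Subgroup Γ) [A.Normal] (_ : ∀ a ∈ A, ∀ b ∈ A, a * b = b * a)
    (t : ℕ) (b : Fin t → V) (_ : ∀ x, ∃ j, ∃ a ∈ A, x = a • b j)
    (A₀ : Subgroup A) (_ : ∀ χ : A →* ℂ, conjugates χ ≤ rk G → ∀ a ∈ A₀, χ a = 1),
    G.Colorable (t * A₀.index)

/-- Let the group `Γ` act on the graph `G` by automorphisms, `V` a vector space of dimension `n ≥ 2`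
over the field `K` with `q` elements, `φ : GL(V) → Γ` a homomorphism and `b 0, …, b (t - 1)`
representatives of the orbits on the set `X` of vertices of the normal closure of the `φ(e)`, `e` a
transvection. If `log₂ |X| ≤ κ (n log₂ q)^s`, then
`log₂ χ(G) ≤ max (log₂ t) (κ (2 log₂ (rank G + 1))^s)`. -/
def GLSymmetry : Prop :=
  ∀ (Γ X K V : Type) [Group Γ] [Fintype X] [MulAction Γ X] (G : SimpleGraph X)
    (_ : ∀ (g : Γ) x y, G.Adj (g • x) (g • y) ↔ G.Adj x y)
    [Field K] [Fintype K] [AddCommGroup V] [Module K V] [Finite V] (_ : 2 ≤ finrank K V)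
    (φ : (V ≃ₗ[K] V) →* Γ) (t : ℕ) (b : Fin t → X)
    (_ : ∀ x, ∃ j, ∃ g ∈ Subgroup.normalClosure (φ '' LinearEquiv.transvections K V),
      x = g • b j)
    (κ s : ℝ) (_ : 0 ≤ κ) (_ : 0 ≤ s)
    (_ : Real.logb 2 (Fintype.card X) ≤ κ * (finrank K V * Real.logb 2 (Fintype.card K)) ^ s),
    logChi G ≤ max (Real.logb 2 t) (κ * (2 * Real.logb 2 (rk G + 1)) ^ s)

/-- Let `GL(V)` act by automorphisms on the finite abelian group `M`, `log₂ |M| ≤ κ (n log₂ q)^s`, let
`D` be the subgroup generated by all `e m - m`, `e` a transvection, and let `G` be a Cayley graph of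
`M` with invariant connection set `S`. Then
`log₂ χ(G) ≤ max (log₂ [M : D]) (κ (2 log₂ (rank G + 1))^s)`. -/
def CayleyGraphsOfModules : Prop :=
  ∀ (K V M : Type) [Field K] [Fintype K] [AddCommGroup V] [Module K V] [Finite V]
    (_ : 2 ≤ finrank K V) [AddCommGroup M] [Fintype M] [DistribMulAction (V ≃ₗ[K] V) M]
    (S : Set M) (hS : ∀ m ∈ S, -m ∈ S) (_ : ∀ (e : V ≃ₗ[K] V), ∀ m ∈ S, e • m ∈ S)
    (D : AddSubgroup M)
    (_ : D = AddSubgroup.closure {d | ∃ e ∈ LinearEquiv.transvections K V, ∃ m : M, d = e • m - m})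
    (κ s : ℝ) (_ : 0 ≤ κ) (_ : 0 ≤ s)
    (_ : Real.logb 2 (Fintype.card M) ≤ κ * (finrank K V * Real.logb 2 (Fintype.card K)) ^ s),
    logChi (cayley S hS) ≤ max (Real.logb 2 D.index)
      (κ * (2 * Real.logb 2 (rk (cayley S hS) + 1)) ^ s)

/-- Let `K` be a finite field and `G` a Cayley graph on the space of tensors of the shape
`n_0 × … × n_k` over `K`, whose connection set `S` is invariant under all invertible linear maps in
the `k + 1` directions. Then `log₂ χ(G) ≤ (log₂ (rank G + 1))^(k+1)`. -/
def CayleyGraphsOfTensors : Prop :=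
  ∀ (K : Type) [Field K] [Fintype K] (k : ℕ) (n : Fin (k + 1) → ℕ)
    (S : Set ((∀ i, Fin (n i)) → K)) (hS : ∀ T ∈ S, -T ∈ S)
    (_ : ∀ i (e : (Fin (n i) → K) ≃ₗ[K] (Fin (n i) → K)), ∀ T ∈ S, act i e.toLinearMap T ∈ S),
    logChi (cayley S hS) ≤ Real.logb 2 (rk (cayley S hS) + 1) ^ (k + 1)

/-- **Chromatic number and rank for graphs with linear symmetry.** -/
theorem result :
    AbelianNormal ∧ GLSymmetry ∧ CayleyGraphsOfModules ∧ CayleyGraphsOfTensors := by
  classical
  refine ⟨?_, ?_, ?_, ?_⟩
  · intro Γ V _ _ _ _ G hG A _ hc t b hb A₀ hA₀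
    have hF' : ∀ (g : Γ) x y, (if G.Adj (g • x) (g • y) then (1 : ℝ) else 0) =
        if G.Adj x y then (1 : ℝ) else 0 := fun g x y => by simp only [hG]
    have key : ∀ a ∈ A₀, ∀ x y, G.Adj ((a : Γ) • x) y ↔ G.Adj x y := by
      intro a ha x y
      exact pass (Pool.Agent.R111.LS.normal_abelian A hc
        (fun x y => if G.Adj x y then (1 : ℝ) else 0) hF' a
        (fun χ hχ => hA₀ χ hχ a ha) x y)
    choose J a haA hx using hb
    have iQ : Fintype (A ⧸ A₀) := Fintype.ofFinite _
    have h := colorable_of_classes (Q := Fin t × (A ⧸ A₀)) G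
      (fun x => (J x, ((⟨a x, haA x⟩ : A) : A ⧸ A₀))) (fun x x' h y => by
      obtain ⟨h1, h2⟩ := Prod.mk.inj h
      rw [QuotientGroup.eq] at h2
      have h3 := key _ h2 x y
      have h4 : (((⟨a x, haA x⟩ : A)⁻¹ * ⟨a x', haA x'⟩ : A) : Γ) • x = x' := by
        calc (((⟨a x, haA x⟩ : A)⁻¹ * ⟨a x', haA x'⟩ : A) : Γ) • x
            = ((a x)⁻¹ * a x') • x := rfl
          _ = ((a x)⁻¹ * a x') • (a x • b (J x)) := congrArg _ (hx x)
          _ = a x' • b (J x') := by
            rw [smul_smul, mul_assoc, hc _ (haA x') _ (haA x), inv_mul_cancel_left, h1]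
          _ = x' := (hx x').symm
      rw [h4] at h3
      exact h3.symm)
    rw [Fintype.card_prod, Fintype.card_fin, ← Nat.card_eq_fintype_card (α := A ⧸ A₀)] at h
    exact h
  · intro Γ X K V _ _ _ G hG _ _ _ _ _ hn φ t b hb κ s hκ hs hX
    have hF' : ∀ (g : Γ) x y, (if G.Adj (g • x) (g • y) then (1 : ℝ) else 0) =
        if G.Adj x y then (1 : ℝ) else 0 := fun g x y => by simp only [hG]
    by_cases hr : rk G + 1 < Fintype.card K ^ (finrank K V - 1)
    · choose J g hg hx using hb
      have h := logChi_le_of_classes (Q := Fin t) G J (fun x x' h y => by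
        have h1 : ∀ z, G.Adj z y ↔ G.Adj (b (J z)) y := by
          intro z
          have h2 := pass (G := G) (Pool.Agent.R111.LS.normalClosure_trivial φ
            (fun x y => if G.Adj x y then (1 : ℝ) else 0) hF' hr (g z) (hg z) (b (J z)) y)
          rwa [← hx z] at h2
        rw [h1 x, h1 x', h])
      rw [Fintype.card_fin] at h
      exact h.trans (le_max_left _ _)
    · have h := logChi_le_of_classes (Q := X) G id
        (fun x x' h y => by rw [show x = x' from h])
      have h1 := logb_le_of_large hn Fintype.one_lt_card (not_lt.1 hr)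
      have h2 : κ * (finrank K V * Real.logb 2 (Fintype.card K)) ^ s ≤
          κ * (2 * Real.logb 2 (rk G + 1)) ^ s := by
        refine mul_le_mul_of_nonneg_left (Real.rpow_le_rpow ?_ h1 hs) hκ
        refine mul_nonneg (Nat.cast_nonneg _) (Real.logb_nonneg (by norm_num) ?_)
        exact_mod_cast Fintype.card_pos (α := K)
      exact (h.trans (hX.trans h2)).trans (le_max_right _ _)
  · intro K V M _ _ _ _ _ hn _ _ _ S hS hSi D hD κ s hκ hs hM
    set G := cayley S hS with hGdef
    have hG : ∀ (g : V ≃ₗ[K] V) x y, G.Adj (g • x) (g • y) ↔ G.Adj x y := by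
      intro g x y
      simp only [hGdef, cayley, ← smul_sub]
      refine and_congr (not_congr (smul_left_cancel_iff g)) ⟨fun h => ?_, fun h => hSi g _ h⟩
      have := hSi g⁻¹ _ h
      rwa [inv_smul_smul] at this
    have hF' : ∀ (g : V ≃ₗ[K] V) x y, (if G.Adj (g • x) (g • y) then (1 : ℝ) else 0) =
        if G.Adj x y then (1 : ℝ) else 0 := fun g x y => by simp only [hG]
    by_cases hr : rk G + 1 < Fintype.card K ^ (finrank K V - 1)
    · have htr : ∀ x y d, G.Adj (x + d) (y + d) ↔ G.Adj x y := by
        intro x y d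
        simp [hGdef, cayley]
      have key : ∀ d ∈ D, ∀ x y, G.Adj (d + x) y ↔ G.Adj x y := by
        intro d hd
        rw [hD] at hd
        induction hd using AddSubgroup.closure_induction with
        | mem d hd =>
          obtain ⟨e, he, m, rfl⟩ := hd
          intro x y
          have h1 := pass (G := G) (Pool.Agent.R111.LS.transvection_trivial
            (MonoidHom.id (V ≃ₗ[K] V)) (fun x y => if G.Adj x y then (1 : ℝ) else 0) hF' hr e he m
              (y + (m - x)))
          have h2 := htr (e • m - m + x) y (m - x)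
          rw [show e • m - m + x + (m - x) = e • m by abel] at h2
          have h3 := htr x y (m - x)
          rw [show x + (m - x) = m by abel] at h3
          rw [← h2, ← h3]
          exact h1
        | zero => intro x y; rw [zero_add]
        | add a b _ _ ha hb => intro x y; rw [add_assoc, ha, hb]
        | neg a _ ha => intro x y; rw [← ha, add_neg_cancel_left]
      have h := logChi_le_of_classes (Q := M ⧸ D) G (fun x => (x : M ⧸ D)) (fun x x' h y => by
        rw [QuotientAddGroup.eq] at h
        have h3 := key _ h x y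
        rw [show -x + x' + x = x' by abel] at h3
        exact h3.symm)
      rw [← Nat.card_eq_fintype_card (α := M ⧸ D)] at h
      exact h.trans (le_max_left _ _)
    · have h := logChi_le_of_classes (Q := M) G id
        (fun x x' h y => by rw [show x = x' from h])
      have h1 := logb_le_of_large hn Fintype.one_lt_card (not_lt.1 hr)
      have h2 : κ * (finrank K V * Real.logb 2 (Fintype.card K)) ^ s ≤
          κ * (2 * Real.logb 2 (rk G + 1)) ^ s := by
        refine mul_le_mul_of_nonneg_left (Real.rpow_le_rpow ?_ h1 hs) hκ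
        refine mul_nonneg (Nat.cast_nonneg _) (Real.logb_nonneg (by norm_num) ?_)
        exact_mod_cast Fintype.card_pos (α := K)
      exact (h.trans (hM.trans h2)).trans (le_max_right _ _)
  · intro K _ _ k n S hS hSi
    set G := cayley S hS with hGdef
    obtain ⟨i, -, hi⟩ := Finset.exists_max_image Finset.univ n ⟨0, Finset.mem_univ _⟩
    have h0 : 0 ≤ Real.logb 2 ((rk G : ℝ) + 1) := Real.logb_nonneg (by norm_num) (by
      have : (0 : ℝ) ≤ rk G := Nat.cast_nonneg _
      linarith)
    by_cases hr : rk G + 1 < Fintype.card K ^ n i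
    · set f : ((∀ i, Fin (n i)) → K) → ℝ := fun T => if T ≠ 0 ∧ T ∈ S then 1 else 0 with hf
      have hcomp : ∀ (e : (Fin (n i) → K) ≃ₗ[K] (Fin (n i) → K)) T,
          act i e.symm.toLinearMap (act i e.toLinearMap T) = T := by
        intro e T
        exact (Pool.Agent.R111.LS.thetaT i e).symm_apply_apply T
      have hact0 : ∀ (e : (Fin (n i) → K) ≃ₗ[K] (Fin (n i) → K)),
          act i e.toLinearMap (0 : (∀ i, Fin (n i)) → K) = 0 := by
        intro e
        exact map_zero (Pool.Agent.R111.LS.thetaT i e)
      have hfG : (fun A B : (∀ i, Fin (n i)) → K => f (A - B)) =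
          fun A B => if G.Adj A B then (1 : ℝ) else 0 := by
        funext A B
        simp only [hf, hGdef, cayley, sub_ne_zero]
      have hr' : (Matrix.of fun A B : (∀ i, Fin (n i)) → K => f (A - B)).rank + 1 <
          Fintype.card K ^ n i := by
        rw [hfG]; exact hr
      have hconst := Pool.Agent.R111.LS.tensor_const (K := K) (n := n) f i
        (fun e T => by
          have h1 : (act i e.toLinearMap T ≠ 0 ∧ act i e.toLinearMap T ∈ S) ↔ (T ≠ 0 ∧ T ∈ S) := by
            refine and_congr (not_congr ⟨fun h => ?_, fun h => ?_⟩) ⟨fun h => ?_, hSi i e T⟩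
            · rw [← hcomp e T, h]; exact hact0 e.symm
            · rw [h]; exact hact0 e
            · rw [← hcomp e T]; exact hSi i e.symm _ h
          show (if (act i e.toLinearMap T ≠ 0 ∧ act i e.toLinearMap T ∈ S) then (1 : ℝ) else 0) = _
          simp only [hf, h1]) hr'
      have h := logChi_le_of_classes (Q := Unit) G (fun _ => ()) (fun x x' _ y => by
        refine pass ?_
        have h1 := hconst (x - y) (x' - y)
        have h2 : f (x - y) = if G.Adj x y then (1 : ℝ) else 0 := congrFun (congrFun hfG x) y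
        have h3 : f (x' - y) = if G.Adj x' y then (1 : ℝ) else 0 := congrFun (congrFun hfG x') y
        rw [← h2, ← h3, h1])
      simp only [Fintype.card_unit, Nat.cast_one, Real.logb_one] at h
      exact h.trans (pow_nonneg h0 _)
    · have h := logChi_le_of_classes (Q := (∀ i, Fin (n i)) → K) G id
        (fun x x' h y => by rw [show x = x' from h])
      rw [not_lt] at hr
      have hq : (1 : ℝ) ≤ Real.logb 2 (Fintype.card K) := by
        have h2 : 2 ≤ Fintype.card K := Fintype.one_lt_card
        rw [Real.le_logb_iff_rpow_le (by norm_num) (by positivity)]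
        simpa using (by exact_mod_cast h2 : (2 : ℝ) ≤ Fintype.card K)
      have h1 : (n i : ℝ) * Real.logb 2 (Fintype.card K) ≤ Real.logb 2 ((rk G : ℝ) + 1) := by
        rw [← Real.logb_pow]
        exact Real.logb_le_logb_of_le (by norm_num) (by positivity) (by exact_mod_cast hr)
      have h3 : Real.logb 2 (Fintype.card ((∀ i, Fin (n i)) → K)) ≤
          ((n i : ℝ) * Real.logb 2 (Fintype.card K)) ^ (k + 1) := by
        rw [Fintype.card_fun, Nat.cast_pow, Real.logb_pow, mul_pow]
        have h4 : (Fintype.card (∀ i, Fin (n i)) : ℝ) ≤ (n i : ℝ) ^ (k + 1) := by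
          have : Fintype.card (∀ i, Fin (n i)) ≤ n i ^ (k + 1) := by
            rw [Fintype.card_pi]
            calc ∏ j, Fintype.card (Fin (n j)) ≤ ∏ _j : Fin (k + 1), n i :=
                  Finset.prod_le_prod' fun j _ => by
                    rw [Fintype.card_fin]; exact hi j (Finset.mem_univ _)
              _ = n i ^ (k + 1) := by simp
          exact_mod_cast this
        have h5 : Real.logb 2 (Fintype.card K) ≤ Real.logb 2 (Fintype.card K) ^ (k + 1) :=
          le_self_pow₀ hq (by omega)
        have h6 : (0 : ℝ) ≤ Real.logb 2 (Fintype.card K) := by linarith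
        exact mul_le_mul h4 h5 h6 (by positivity)
      have h7 : ((n i : ℝ) * Real.logb 2 (Fintype.card K)) ^ (k + 1) ≤
          Real.logb 2 ((rk G : ℝ) + 1) ^ (k + 1) := by
        refine pow_le_pow_left₀ ?_ h1 _
        have h6 : (0 : ℝ) ≤ Real.logb 2 (Fintype.card K) := by linarith
        positivity
      exact h.trans (h3.trans h7)

end Pool.Agent.Results.MP_3bd889_lc.LinearSymmetry
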