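import Pool.Agent.R934.LR.Chrom

/-!
# A Ramsey form of the question: stable sets slightly larger than the rank

Let `G` be a graph of rank at most `r`. Its cliques have at most `r` vertices. We show that Q1 (the
graph form of the log-rank conjecture) is equivalent to the following Ramsey statement, for one
`ε = 1 / t` or for all `ε > 0`: every graph of rank at most `r` with at least `exp (C (log r) ^ c)`
vertices has a stable set with `(1 + ε) r` vertices. The two sides look very different: Q1 implies
stable sets of relative size `exp (-C (log r) ^ c)`, in particular with `r ^ K` vertices, while on the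
other side only `(1 + ε) r` vertices are asked for, among quasipolynomially many.

The main inequality is unconditional: if the largest stable set of a set `W` of vertices is small,
then nearly all samples of `W` have no stable set with `2 r` vertices (they are Ramsey graphs). So a
counterexample to Q1 contains Ramsey graphs: induced subgraphs with a superquasipolynomial number of
vertices and without homogeneous sets of size `2 r`.

A consequence: if a graph `H` has the Erdős–Hajnal property, then `χ(G) ≤ rank(G) ^ c` for all graphs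
`G` without induced `H` (exponent one in the bound for `log χ`).

Proof. Choose the vertices of a stable set `Q` of size `k` one after the other. A vertex whose row
lies in the span of the rows of the previous vertices is not adjacent to any common non-neighbour of
these, so the candidates of this kind form a stable set, and there are at most `m` of them, `m` the
size of the largest stable set. At most `r` of the vertices are not of this kind. This gives at most
`(2 m) ^ k (|W| / m) ^ r / k!` stable sets of size `k`. If the samples of size `R` have stable sets of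
size `k`, then there are at least `(|W| / R) ^ k` of them.
-/

set_option autoImplicit false

namespace Pool.Agent.Results.MP_3bd889_lc.RamseyForm

open Finset Pool.Agent.R934.LR

/-- Q1, as in the frozen statement S14603. -/
def Question : Prop :=
  ∃ c : ℝ, 0 < c ∧ ∃ C : ℝ, ∀ (n : ℕ) (G : SimpleGraph (Fin n)) [DecidableRel G.Adj],
      G.Connected →
      (∀ u v : Fin n, u ≠ v → ¬ G.Adj u v → G.neighborSet u ≠ G.neighborSet v) →
      1 < (G.adjMatrix ℝ).rank →
      Real.log (G.chromaticNumber.toNat : ℝ) ≤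
        C * (Real.log ((G.adjMatrix ℝ).rank : ℝ)) ^ c

/-- For some `c > 0` and `C`: every finite graph of rank at most `r`, `r ≥ 2`, with at least
`exp (C (log r) ^ c)` vertices has a stable set of a size `s` with `P r s`. -/
def Ramsey (P : ℕ → ℕ → Prop) : Prop :=
  ∃ c : ℝ, 0 < c ∧ ∃ C : ℝ, ∀ (V : Type) [Fintype V] (G : SimpleGraph V) (r : ℕ), 2 ≤ r →
    rk G ≤ r → C * (Real.log r) ^ c ≤ Real.log (Fintype.card V) →
      ∃ S : Finset V, Stab G S ∧ P r S.card

theorem log_facts (r : ℕ) (hr : 2 ≤ r) (c : ℝ) (hc : 0 < c) :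
    Real.log r ≤ (Real.log r) ^ (c + 1) / (Real.log 2) ^ c ∧
      (Real.log r) ^ c ≤ (Real.log r) ^ (c + 1) / Real.log 2 := by
  have h2 : (0 : ℝ) < Real.log 2 := Real.log_pos (by norm_num)
  have hr' : (2 : ℝ) ≤ r := by exact_mod_cast hr
  have hL : Real.log 2 ≤ Real.log r := Real.log_le_log (by norm_num) hr'
  have hL0 : 0 < Real.log r := by linarith
  have e : (Real.log r) ^ (c + 1) = (Real.log r) ^ c * Real.log r := by
    rw [Real.rpow_add hL0, Real.rpow_one]
  constructor
  · rw [le_div_iff₀ (Real.rpow_pos_of_pos h2 c), e, mul_comm]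
    exact mul_le_mul_of_nonneg_right (Real.rpow_le_rpow h2.le hL hc.le) hL0.le
  · rw [le_div_iff₀ h2, e]
    exact mul_le_mul_of_nonneg_left hL (Real.rpow_nonneg hL0.le c)

theorem ramsey_of_question (h : Question) (K : ℕ) : Ramsey (fun r s => r ^ K ≤ s) := by
  classical
  obtain ⟨c, hc, C, h⟩ := h
  refine ⟨c + 1, by linarith, (K + 1) / (Real.log 2) ^ c + max C 0 / Real.log 2, ?_⟩
  intro V _ G r hr hrk hV
  have h2 : (0 : ℝ) < Real.log 2 := Real.log_pos (by norm_num)
  have hr' : (2 : ℝ) ≤ r := by exact_mod_cast hr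
  have hL : Real.log 2 ≤ Real.log r := Real.log_le_log (by norm_num) hr'
  have hL0 : 0 < Real.log r := by linarith
  obtain ⟨f1, f2⟩ := log_facts r hr c hc
  set L := Real.log r with hLdef
  have hC0 : 0 ≤ max C 0 := le_max_right _ _
  -- the hypothesis
  have h3 : (K + 1) * L + max C 0 * L ^ c ≤ Real.log (Fintype.card V) := by
    refine le_trans ?_ hV
    have e : ((K + 1) / (Real.log 2) ^ c + max C 0 / Real.log 2) * L ^ (c + 1) =
        (K + 1) * (L ^ (c + 1) / (Real.log 2) ^ c) + max C 0 * (L ^ (c + 1) / Real.log 2) := by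
      ring
    rw [e]
    exact add_le_add (mul_le_mul_of_nonneg_left f1 (by positivity))
      (mul_le_mul_of_nonneg_left f2 hC0)
  have hLc : 0 ≤ L ^ c := Real.rpow_nonneg hL0.le c
  have h4 : 0 < Real.log (Fintype.card V) := by
    refine lt_of_lt_of_le ?_ h3
    have : 0 < ((K : ℝ) + 1) * L := by positivity
    have : 0 ≤ max C 0 * L ^ c := mul_nonneg hC0 hLc
    linarith
  have hV0 : (0 : ℝ) < Fintype.card V := by
    rcases Nat.eq_zero_or_pos (Fintype.card V) with h0 | h0
    · rw [h0] at h4
      simp at h4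
    · exact_mod_cast h0
  set Q := ⌊Real.exp (max C 0 * L ^ c)⌋₊ with hQ
  have hexp1 : (1 : ℝ) ≤ Real.exp (max C 0 * L ^ c) :=
    Real.one_le_exp (mul_nonneg hC0 hLc)
  have hQ1 : 1 ≤ Q := Nat.le_floor (by exact_mod_cast hexp1)
  have hcol : G.Colorable Q := by
    refine color_all r Q hQ1 ?_ G hrk
    intro n G' hconn htw hrk1 hrk2
    have h5 := h n G' hconn htw (by rw [← rk_eq]; exact hrk1)
    rw [← rk_eq] at h5
    have h6 : (Real.log (rk G' : ℝ)) ^ c ≤ L ^ c := by
      refine Real.rpow_le_rpow ?_ ?_ hc.le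
      · exact Real.log_natCast_nonneg _
      · refine Real.log_le_log ?_ ?_
        · have : 0 < rk G' := by omega
          exact_mod_cast this
        · exact_mod_cast hrk2
    have h7 : Real.log (G'.chromaticNumber.toNat : ℝ) ≤ max C 0 * L ^ c := by
      refine h5.trans ?_
      have h8 : 0 ≤ (Real.log (rk G' : ℝ)) ^ c :=
        Real.rpow_nonneg (Real.log_natCast_nonneg _) c
      calc C * (Real.log (rk G' : ℝ)) ^ c ≤ max C 0 * (Real.log (rk G' : ℝ)) ^ c :=
            mul_le_mul_of_nonneg_right (le_max_left _ _) h8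
        _ ≤ _ := mul_le_mul_of_nonneg_left h6 hC0
    have h9 : G'.chromaticNumber.toNat ≤ Q := by
      rcases Nat.eq_zero_or_pos G'.chromaticNumber.toNat with h0 | h0
      · omega
      · refine Nat.le_floor ?_
        have : (0 : ℝ) < G'.chromaticNumber.toNat := by exact_mod_cast h0
        exact (Real.log_le_iff_le_exp this).mp h7
    exact G'.colorable_chromaticNumber_of_fintype.mono h9
  obtain ⟨I, hI, hIc⟩ := Pool.TH815.LS.indep_of_colorable G Q hcol
  refine ⟨I, hI, ?_⟩
  have h10 : ((r ^ K : ℕ) : ℝ) * Q ≤ Fintype.card V := by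
    have h11 : (K : ℝ) * L + max C 0 * L ^ c ≤ Real.log (Fintype.card V) := by nlinarith
    rw [Real.le_log_iff_exp_le hV0, Real.exp_add] at h11
    refine le_trans ?_ h11
    have h12 : Real.exp ((K : ℝ) * L) = ((r ^ K : ℕ) : ℝ) := by
      rw [mul_comm, Real.exp_mul, hLdef, Real.exp_log (by linarith), Real.rpow_natCast]
      push_cast
      rfl
    rw [h12]
    exact mul_le_mul_of_nonneg_left (Nat.floor_le (Real.exp_pos _).le) (Nat.cast_nonneg _)
  have h13 : r ^ K * Q ≤ Fintype.card V := by exact_mod_cast h10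
  have h14 : r ^ K * Q ≤ I.card * Q := by
    refine h13.trans (hIc.trans (le_of_eq ?_))
    ring
  exact Nat.le_of_mul_le_mul_right h14 hQ1

theorem question_of_ramsey (t : ℕ) (ht : 1 ≤ t) (h : Ramsey (fun r s => (t + 1) * r ≤ t * s)) :
    Question := by
  classical
  obtain ⟨c, hc, C, h⟩ := h
  refine ⟨c + 1, by linarith, (2 * (t + 1) + 2) / (Real.log 2) ^ c +
    (t + 1) * max C 0 / Real.log 2, ?_⟩
  intro n G _ _ _ hrk
  set r := (G.adjMatrix ℝ).rank with hrdef
  have hr : 2 ≤ r := hrk
  have h2 : (0 : ℝ) < Real.log 2 := Real.log_pos (by norm_num)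
  have hr' : (2 : ℝ) ≤ r := by exact_mod_cast hr
  have hL : Real.log 2 ≤ Real.log r := Real.log_le_log (by norm_num) hr'
  have hL0 : 0 < Real.log r := by linarith
  obtain ⟨f1, f2⟩ := log_facts r hr c hc
  set L := Real.log r with hLdef
  have hC0 : 0 ≤ max C 0 := le_max_right _ _
  have hLc : 0 ≤ L ^ c := Real.rpow_nonneg hL0.le c
  set R := ⌈Real.exp (C * L ^ c)⌉₊ with hR
  have hR1 : 1 ≤ R := Nat.ceil_pos.mpr (Real.exp_pos _)
  have hRR : (R : ℝ) ≤ 2 * Real.exp (max C 0 * L ^ c) := by
    have h3 : (R : ℝ) < Real.exp (C * L ^ c) + 1 := Nat.ceil_lt_add_one (Real.exp_pos _).le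
    have h4 : Real.exp (C * L ^ c) ≤ Real.exp (max C 0 * L ^ c) :=
      Real.exp_le_exp.mpr (mul_le_mul_of_nonneg_right (le_max_left _ _) hLc)
    have h5 : (1 : ℝ) ≤ Real.exp (max C 0 * L ^ c) := Real.one_le_exp (mul_nonneg hC0 hLc)
    linarith
  have hcol := graph_color G r t R (by omega) ht hR1 le_rfl (by
    intro A hA
    obtain ⟨S, hS, hc⟩ := h A (G.comap (fun w : A => (w : Fin n))) r hr
      (rk_comap G _ r (rk_eq G).le) (by
        rw [Fintype.card_coe, hA]
        have hR0 : (0 : ℝ) < R := by exact_mod_cast hR1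
        rw [Real.le_log_iff_exp_le hR0]
        exact Nat.le_ceil _)
    refine ⟨S.map (Function.Embedding.subtype _), ?_, ?_, ?_⟩
    · intro x hx
      rw [mem_map] at hx
      obtain ⟨y, _, rfl⟩ := hx
      exact y.2
    · intro a ha b hb
      rw [mem_map] at ha hb
      obtain ⟨a', ha', rfl⟩ := ha
      obtain ⟨b', hb', rfl⟩ := hb
      exact hS a' ha' b' hb'
    · rw [card_map]
      exact hc)
  set N := (2 * R) ^ (t + 1) * (r + 1) with hN
  have hN1 : 1 ≤ N := Nat.mul_pos (Nat.pow_pos (by omega)) (by omega)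
  have h6 : G.chromaticNumber.toNat ≤ N := by
    have h1 : G.chromaticNumber ≤ N := hcol.chromaticNumber_le
    have := ENat.toNat_le_toNat h1 (ENat.natCast_ne_top N)
    simpa using this
  have h7 : Real.log (G.chromaticNumber.toNat : ℝ) ≤ Real.log N := by
    rcases Nat.eq_zero_or_pos G.chromaticNumber.toNat with h0 | h0
    · rw [h0, Nat.cast_zero, Real.log_zero]
      exact Real.log_natCast_nonneg N
    · exact Real.log_le_log (by exact_mod_cast h0) (by exact_mod_cast h6)
  refine h7.trans ?_
  have hR0 : (0 : ℝ) < R := by exact_mod_cast hR1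
  have h8 : Real.log N = (t + 1) * Real.log (2 * R) + Real.log (r + 1) := by
    rw [hN]
    push_cast
    rw [Real.log_mul (by positivity) (by positivity), Real.log_pow]
    push_cast
    ring
  have h9 : Real.log (2 * R) ≤ 2 * L + max C 0 * L ^ c := by
    have h10 : (2 * (R : ℝ)) ≤ 4 * Real.exp (max C 0 * L ^ c) := by linarith
    have h11 := Real.log_le_log (by positivity) h10
    rw [Real.log_mul (by norm_num) (Real.exp_pos _).ne', Real.log_exp] at h11
    have h12 : Real.log 4 = 2 * Real.log 2 := by
      rw [show (4 : ℝ) = 2 ^ 2 by norm_num, Real.log_pow]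
      norm_num
    linarith
  have h10 : Real.log (r + 1) ≤ 2 * L := by
    have h11 : (r : ℝ) + 1 ≤ r ^ 2 := by nlinarith
    have h12 := Real.log_le_log (by positivity) h11
    rw [Real.log_pow] at h12
    exact_mod_cast h12
  rw [h8]
  have ht0 : (0 : ℝ) ≤ (t : ℝ) + 1 := by positivity
  calc ((t : ℝ) + 1) * Real.log (2 * R) + Real.log (r + 1)
      ≤ ((t : ℝ) + 1) * (2 * L + max C 0 * L ^ c) + 2 * L :=
        add_le_add (mul_le_mul_of_nonneg_left h9 ht0) h10
    _ = (2 * ((t : ℝ) + 1) + 2) * L + ((t + 1) * max C 0) * L ^ c := by ring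
    _ ≤ (2 * ((t : ℝ) + 1) + 2) * (L ^ (c + 1) / (Real.log 2) ^ c) +
        ((t + 1) * max C 0) * (L ^ (c + 1) / Real.log 2) :=
        add_le_add (mul_le_mul_of_nonneg_left f1 (by positivity))
          (mul_le_mul_of_nonneg_left f2 (mul_nonneg ht0 hC0))
    _ = _ := by ring

open Classical in
/-- `rk G` is the real rank of the adjacency matrix, `Stab G S` says that `S` is a stable set.
(1) Let `W` be a nonempty set of vertices of a graph of rank at most `r`, `S` a largest stable subset
of `W`, and `k ≥ r`. The proportion of the `R`-element subsets of `W` which contain a stable set of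
size `k` is at most `(2 R) ^ k / k! * (|S| / |W|) ^ (k - r)`.
(2) If `r, t, R ≥ 1`, `G` has rank at most `r` and every set of `R` vertices contains a stable set
with at least `(1 + 1 / t) r` vertices, then every set `W` of vertices contains a stable set with at
least `|W| / (2 R) ^ (t + 1)` vertices, and `χ(G) ≤ (2 R) ^ (t + 1) (r + 1)`.
(3) Q1 holds if and only if for some `t ≥ 1`, and if and only if for every `t ≥ 1`, every graph of
rank at most `r` with at least `exp (C (log r) ^ c)` vertices (`c`, `C` depending on `t`) has a stable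
set with at least `(1 + 1 / t) r` vertices.
(4) Q1 holds if and only if for every `K` every graph of rank at most `r` with at least
`exp (C (log r) ^ c)` vertices (`c`, `C` depending on `K`) has a stable set with at least `r ^ K`
vertices.
(5) If `H` has the Erdős–Hajnal property then `χ(G) ≤ rank(G) ^ c` for all graphs `G` with at least
one edge and without induced `H`. -/
theorem result :
    (∀ (V : Type) [Fintype V] (G : SimpleGraph V) (W : Finset V) (r k R : ℕ), rk G ≤ r → r ≤ k →
      W.Nonempty → ∃ S ⊆ W, Stab G S ∧ (∀ T ⊆ W, Stab G T → T.card ≤ S.card) ∧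
        k.factorial * ((W.powersetCard R).filter (fun A => ∃ T ⊆ A, T.card = k ∧ Stab G T)).card *
          W.card ^ (k - r) ≤ (2 * R) ^ k * S.card ^ (k - r) * W.card.choose R) ∧
    (∀ (V : Type) [Fintype V] (G : SimpleGraph V) (r t R : ℕ), 1 ≤ r → 1 ≤ t → 1 ≤ R →
      rk G ≤ r → (∀ A : Finset V, A.card = R → ∃ S ⊆ A, Stab G S ∧ (t + 1) * r ≤ t * S.card) →
      (∀ W : Finset V, ∃ S ⊆ W, Stab G S ∧ W.card ≤ (2 * R) ^ (t + 1) * S.card) ∧
      G.Colorable ((2 * R) ^ (t + 1) * (r + 1))) ∧
    ((Question ↔ ∃ t : ℕ, 1 ≤ t ∧ Ramsey (fun r s => (t + 1) * r ≤ t * s)) ∧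
      (Question ↔ ∀ t : ℕ, 1 ≤ t → Ramsey (fun r s => (t + 1) * r ≤ t * s))) ∧
    (Question ↔ ∀ K : ℕ, Ramsey (fun r s => r ^ K ≤ s)) ∧
    (∀ (ι : Type) (H : SimpleGraph ι), ErdosHajnal H → Tame H) := by
  have hall : Question → ∀ t : ℕ, 1 ≤ t → Ramsey (fun r s => (t + 1) * r ≤ t * s) := by
    intro h t ht
    obtain ⟨c, hc, C, h'⟩ := ramsey_of_question h 2
    refine ⟨c, hc, C, fun V _ G r hr hrk hV => ?_⟩
    obtain ⟨S, hS, hc'⟩ := h' V G r hr hrk hV
    refine ⟨S, hS, ?_⟩
    have h1 : 2 * r ≤ S.card := le_trans (by nlinarith) hc'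
    nlinarith
  refine ⟨?_, ?_, ⟨⟨fun h => ⟨1, le_rfl, hall h 1 le_rfl⟩, fun ⟨t, ht, h⟩ =>
    question_of_ramsey t ht h⟩, ⟨hall, fun h => question_of_ramsey 1 le_rfl (h 1 le_rfl)⟩⟩,
    ⟨ramsey_of_question, fun h => question_of_ramsey 1 le_rfl ?_⟩, fun ι H => tame_of_eh H⟩
  · intro V _ G W r k R hr hk hW
    obtain ⟨S, hSW, hS, hmax⟩ := exists_max G W
    refine ⟨S, hSW, hS, hmax, ?_⟩
    obtain ⟨w, hw⟩ := hW
    have hS1 : 0 < S.card := by
      have := hmax {w} (by simpa using hw) (by
        intro u hu v hv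
        rw [mem_singleton] at hu hv
        rw [hu, hv]
        exact G.loopless.irrefl w)
      rw [card_singleton] at this
      omega
    rw [rk_eq] at hr
    exact graph_main G r hr W S.card hmax hS1 (card_le_card hSW) k R hk
  · intro V _ G r t R hr1 ht hR hr h
    rw [rk_eq] at hr
    exact ⟨fun W => graph_amp G r t R hr1 ht hr W (fun A _ hA => h A hA),
      graph_color G r t R hr1 ht hR hr h⟩
  · obtain ⟨c, hc, C, h'⟩ := h 2
    refine ⟨c, hc, C, fun V _ G r hr hrk hV => ?_⟩
    obtain ⟨S, hS, hc'⟩ := h' V G r hr hrk hV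
    refine ⟨S, hS, ?_⟩
    have h1 : 2 * r ≤ S.card := le_trans (by nlinarith) hc'
    omega

end Pool.Agent.Results.MP_3bd889_lc.RamseyForm
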