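import Pool.Agent.R533.VC.Fin

/-!
# Chromatic number and rank for graphs whose adjacency has a randomized protocol with leaves of small
VC dimension

Let `G` be a graph of rank `r > 1`. Suppose that the adjacency of `u` and `v` is decided with error
probability at most `1 / 3` by a randomized two-party protocol in which `c` bits are exchanged and
which then outputs the value at `(u, v)` of an arbitrary function of VC dimension at most `d` that
depends on the transcript (and on the random bits), for instance the sign of the inner product of two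
vectors with `d` real coordinates. Then `log χ(G) ≤ 1000 (c + 1) (log r) ^ 2 + 90000 d (log r) ^ 3`.
So the bound of the graph form of the log-rank conjecture holds whenever `c` and `d` are at most
powers of `log r`. If the neighbourhoods of `G` themselves have VC dimension `d` then, by a simple
argument, `χ(G) ≤ (r + 1) ^ d` (the theorem on omitted induced subgraphs of the starting files gives
`log χ(G) = O (2 ^ d (log r) ^ 2)`).

Proof. The adjacency matrix has a deterministic protocol with at most
`168 (c + 1) L ^ 2 + 5376 d L ^ 3` bits, `L = log₂ r + 1` (see the result `RandomizedVCProtocols` for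
the problem MP_e5d384_lc), and its transcripts for the pairs `(v, v)` are a proper colouring.
-/

set_option autoImplicit false

namespace Pool.Agent.Results.MP_3bd889_lc.RandomizedVCAdjacency

open Pool.Agent.R533.VC Pool.Agent.H630R2.LR

/-- The value of the leaf function `h` at the inputs `x`, `y` and at the transcript of the protocol
with `c` bits given by `owner`, `a`, `b` (`t` is the transcript so far, `owner t` says who speaks). -/
def leafValue {X Y : Type} (c : ℕ) (owner : List Bool → Bool) (a : List Bool → X → Bool)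
    (b : List Bool → Y → Bool) (h : List Bool → X → Y → Bool) (x : X) (y : Y) : Bool :=
  h (Nat.iterate (fun t : List Bool => t ++ [if owner t then a t x else b t y]) c []) x y

theorem randomized {V Ω : Type} [Fintype V] [Fintype Ω] [Nonempty Ω] (G : SimpleGraph V)
    [DecidableRel G.Adj] (c d : ℕ) (owner : Ω → List Bool → Bool) (a : Ω → List Bool → V → Bool)
    (b : Ω → List Bool → V → Bool) (h : Ω → List Bool → V → V → Bool)
    (hd : ∀ ω t, VCdim (h ω t) d)
    (herr : ∀ u v, 3 * (Finset.univ.filter (fun ω =>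
      leafValue c (owner ω) (a ω) (b ω) (h ω) u v ≠ decide (G.Adj u v))).card ≤ Fintype.card Ω)
    (hr : 1 < (G.adjMatrix ℝ).rank) :
    Real.log (G.chromaticNumber.toNat : ℝ) ≤
      1000 * ((c : ℝ) + 1) * Real.log ((G.adjMatrix ℝ).rank : ℝ) ^ 2 +
        90000 * d * Real.log ((G.adjMatrix ℝ).rank : ℝ) ^ 3 := by
  have hM : comm (fun u v => decide (G.Adj u v)) = G.adjMatrix ℝ := by
    ext u v
    show (if decide (G.Adj u v) then (1 : ℝ) else 0) = if G.Adj u v then 1 else 0
    by_cases h : G.Adj u v <;> simp [h]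
  obtain ⟨m, hm, hle⟩ := proto_rand (fun u v => decide (G.Adj u v)) (T := List.Vector Bool c)
    (fun ω x y => ⟨tr (owner ω) (a ω) (b ω) x y c, tr_length _ _ _ _ _ _⟩)
    (fun ω t => h ω t.1) Fintype.card_pos (fun ω x x' y y' he => Subtype.ext
      (tr_rect _ _ _ x x' y y' c (congrArg Subtype.val he))) c d
    (by rw [card_vector, Fintype.card_bool]) (fun ω t => growth_of_vc _ _ (hd _ _)) herr
  rw [hM] at hle
  have h1 := chrom_proto G (fun u v => decide (G.Adj u v)) (fun u v => by simp) m hm
  set r := (G.adjMatrix ℝ).rank with hrdef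
  have hl2 : (0.6931471803 : ℝ) < Real.log 2 := Real.log_two_gt_d9
  have hl2' : (0 : ℝ) < Real.log 2 := by linarith
  have hr2 : (2 : ℝ) ≤ r := by exact_mod_cast hr
  have hlr : Real.log 2 ≤ Real.log (r : ℝ) := Real.log_le_log (by norm_num) hr2
  have h3 : Real.logb 2 (r : ℝ) + 1 ≤ 2 * Real.log (r : ℝ) / Real.log 2 := by
    rw [Real.logb, le_div_iff₀ hl2', add_mul, div_mul_cancel₀ _ hl2'.ne']
    linarith
  have h3' : 0 ≤ Real.logb 2 (r : ℝ) + 1 := by
    have := logb_nonneg r
    linarith
  have h4 : (Real.logb 2 (r : ℝ) + 1) ^ 2 ≤ (2 * Real.log (r : ℝ) / Real.log 2) ^ 2 :=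
    pow_le_pow_left₀ h3' h3 2
  have h5 : (Real.logb 2 (r : ℝ) + 1) ^ 3 ≤ (2 * Real.log (r : ℝ) / Real.log 2) ^ 3 :=
    pow_le_pow_left₀ h3' h3 3
  have h6 : (m : ℝ) * Real.log 2 ≤
      (168 * ((c : ℝ) + 1) * (2 * Real.log (r : ℝ) / Real.log 2) ^ 2 +
        5376 * d * (2 * Real.log (r : ℝ) / Real.log 2) ^ 3) * Real.log 2 := by
    refine mul_le_mul_of_nonneg_right (hle.trans (add_le_add ?_ ?_)) hl2'.le
    · exact mul_le_mul_of_nonneg_left h4 (by positivity)
    · exact mul_le_mul_of_nonneg_left h5 (by positivity)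
  refine h1.trans (h6.trans ?_)
  have h7 : (168 * ((c : ℝ) + 1) * (2 * Real.log (r : ℝ) / Real.log 2) ^ 2 +
        5376 * d * (2 * Real.log (r : ℝ) / Real.log 2) ^ 3) * Real.log 2 =
      (672 / Real.log 2) * (((c : ℝ) + 1) * Real.log (r : ℝ) ^ 2) +
        (43008 / Real.log 2 ^ 2) * (d * Real.log (r : ℝ) ^ 3) := by
    field_simp
    ring
  rw [h7]
  have h8 : 672 / Real.log 2 ≤ 1000 := by
    rw [div_le_iff₀ hl2']
    linarith
  have h9 : 43008 / Real.log 2 ^ 2 ≤ 90000 := by
    rw [div_le_iff₀ (by positivity)]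
    nlinarith
  have h10 := mul_le_mul_of_nonneg_right h8
    (show 0 ≤ ((c : ℝ) + 1) * Real.log (r : ℝ) ^ 2 by positivity)
  have h11 := mul_le_mul_of_nonneg_right h9
    (show 0 ≤ (d : ℝ) * Real.log (r : ℝ) ^ 3 by
      have : 0 ≤ Real.log (r : ℝ) := by linarith
      positivity)
  calc _ ≤ 1000 * (((c : ℝ) + 1) * Real.log (r : ℝ) ^ 2) +
        90000 * (d * Real.log (r : ℝ) ^ 3) := add_le_add h10 h11
    _ = _ := by ring

/-- **Chromatic number and rank for graphs whose adjacency has a randomized protocol with leaves of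
small VC dimension.** `VCdim f d` says that `k ≤ d` whenever all `2 ^ k` patterns occur among the
columns of `f` at some `k` rows. Let `G` be a finite graph and `r` the real rank of its adjacency
matrix.
(1) Let `r > 1` and let adjacency be computed by a randomized protocol with `c` bits, given by a
finite family `ω ∈ Ω` of deterministic protocols such that for every pair `(u, v)` at most a third of
them are wrong, whose leaves are labelled by functions `h ω t` of VC dimension at most `d`. Then
`log χ(G) ≤ 1000 (c + 1) (log r) ^ 2 + 90000 d (log r) ^ 3`.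
(2) The same if the functions at the leaves compare two vectors with `d` real coordinates.
(3) If `u`, `v` are adjacent exactly if `g u (f_1 u v, …, f_k u v)` is true, where `f_i` has VC
dimension at most `d i`, then `χ(G) ≤ (r + 1) ^ (∑ d i)`. -/
theorem result :
    (∀ (V Ω : Type) [Fintype V] [Fintype Ω] [Nonempty Ω] (G : SimpleGraph V)
      [DecidableRel G.Adj] (c d : ℕ) (owner : Ω → List Bool → Bool) (a : Ω → List Bool → V → Bool)
      (b : Ω → List Bool → V → Bool) (h : Ω → List Bool → V → V → Bool),
      (∀ ω t, VCdim (h ω t) d) →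
      (∀ u v, 3 * (Finset.univ.filter (fun ω =>
        leafValue c (owner ω) (a ω) (b ω) (h ω) u v ≠ decide (G.Adj u v))).card ≤
          Fintype.card Ω) →
      1 < (G.adjMatrix ℝ).rank →
      Real.log (G.chromaticNumber.toNat : ℝ) ≤
        1000 * ((c : ℝ) + 1) * Real.log ((G.adjMatrix ℝ).rank : ℝ) ^ 2 +
          90000 * d * Real.log ((G.adjMatrix ℝ).rank : ℝ) ^ 3) ∧
    (∀ (V Ω : Type) [Fintype V] [Fintype Ω] [Nonempty Ω] (G : SimpleGraph V)
      [DecidableRel G.Adj] (c d : ℕ) (owner : Ω → List Bool → Bool) (a : Ω → List Bool → V → Bool)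
      (b : Ω → List Bool → V → Bool) (p q : Ω → List Bool → V → Fin d → ℝ),
      (∀ u v, 3 * (Finset.univ.filter (fun ω => leafValue c (owner ω) (a ω) (b ω)
        (fun t x y => decide (0 < ∑ j, p ω t x j * q ω t y j)) u v ≠ decide (G.Adj u v))).card ≤
          Fintype.card Ω) →
      1 < (G.adjMatrix ℝ).rank →
      Real.log (G.chromaticNumber.toNat : ℝ) ≤
        1000 * ((c : ℝ) + 1) * Real.log ((G.adjMatrix ℝ).rank : ℝ) ^ 2 +
          90000 * d * Real.log ((G.adjMatrix ℝ).rank : ℝ) ^ 3) ∧
    (∀ (V : Type) [Fintype V] (G : SimpleGraph V) [DecidableRel G.Adj] (k : ℕ)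
      (f : Fin k → V → V → Bool) (d : Fin k → ℕ) (g : V → (Fin k → Bool) → Bool),
      (∀ i, VCdim (f i) (d i)) → (∀ u v, G.Adj u v ↔ g u (fun i => f i u v) = true) →
      G.chromaticNumber.toNat ≤ ((G.adjMatrix ℝ).rank + 1) ^ (∑ i, d i)) := by
  refine ⟨?_, ?_, ?_⟩
  · intro V Ω _ _ _ G _ c d owner a b h hd herr hr
    exact randomized G c d owner a b h hd herr hr
  · intro V Ω _ _ _ G _ c d owner a b p q herr hr
    exact randomized G c d owner a b _ (fun ω t => vc_sign d (p ω t) (q ω t)) herr hr
  · intro V _ G _ k f d g hd hG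
    exact chrom_vc G _ hG _ (growth_comp k f d (fun i => growth_of_vc _ _ (hd i)) g)

end Pool.Agent.Results.MP_3bd889_lc.RandomizedVCAdjacency
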